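import Pool.Agent.Helper57.SS.Goals

/-!
# Packet SS-VNT: the twisted mean ergodic theorem (project SS, MP_9a4587_an)
-/

set_option autoImplicit false

namespace Pool.Agent.Helper23.SS

open MeasureTheory Filter Topology
open Pool.Agent.Helper57.SS

theorem fourier_pow (θ : Ci) (m : ℕ) : (fourier (-(m : ℤ)) θ : ℂ) = (fourier (-1) θ : ℂ) ^ m := by
  induction m with
  | zero => simp
  | succ n ih =>
    have h : (-((n + 1 : ℕ) : ℤ)) = -(n : ℤ) + (-1) := by push_cast; ring
    rw [h, fourier_add, ih, pow_succ]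

theorem gVNT : G_VNT := by
  intro α _ μ _ T hT f hf θ
  obtain ⟨hfm, hfb⟩ := hf
  set c : ℂ := fourier (-1) θ with hc
  have hcn : ‖c‖ = 1 := by rw [hc]; simp [fourier_apply]
  have hcF : (fourier 1 θ : ℂ) * c = 1 := by
    rw [hc, ← fourier_add]; simp
  let K : Lp ℂ 2 μ →L[ℂ] Lp ℂ 2 μ := (Lp.compMeasurePreservingₗᵢ ℂ T hT).toContinuousLinearMap
  let A : Lp ℂ 2 μ →L[ℂ] Lp ℂ 2 μ := c • K
  have hKap : ∀ u : Lp ℂ 2 μ, K u = Lp.compMeasurePreserving T hT u := fun u => rfl
  have hA : ‖A‖ ≤ 1 := by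
    refine ContinuousLinearMap.opNorm_le_bound _ zero_le_one fun u => ?_
    change ‖c • K u‖ ≤ 1 * ‖u‖
    rw [norm_smul, hcn, hKap, Lp.norm_compMeasurePreserving]
  have hF : ∀ m : ℕ, MemLp (fun x => ((f (T^[m] x) : ℝ) : ℂ)) 2 μ := by
    intro m
    refine MemLp.of_bound (C := 1) ?_ ?_
    · exact (Complex.measurable_ofReal.comp (hfm.comp (hT.measurable.iterate m))).aestronglyMeasurable
    · refine ae_of_all _ fun x => ?_
      rw [Complex.norm_real]; exact hfb _
  set F : Lp ℂ 2 μ := (hF 0).toLp _ with hFdef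
  have hiter : ∀ m : ℕ, (⇑A)^[m] F = ((hF m).const_mul (c ^ m)).toLp _ := by
    intro m
    induction m with
    | zero =>
      rw [Function.iterate_zero, id_eq, hFdef]
      congr 1
      funext x; simp
    | succ n ih =>
      rw [Function.iterate_succ_apply', ih]
      change c • K _ = _
      rw [hKap, Lp.toLp_compMeasurePreserving, ← MemLp.toLp_const_smul]
      congr 1
      funext x
      simp only [Pi.smul_apply, Function.comp_apply, smul_eq_mul, Function.iterate_succ_apply]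
      rw [pow_succ]; ring
  have hlim := A.tendsto_birkhoffAverage_orthogonalProjection hA F
  set P : Lp ℂ 2 μ := ((A.eqLocus (1 : Lp ℂ 2 μ →L[ℂ] Lp ℂ 2 μ)).orthogonalProjectionOnto F : Lp ℂ 2 μ) with hP
  have hPfix : A P = P := by
    have := ((A.eqLocus (1 : Lp ℂ 2 μ →L[ℂ] Lp ℂ 2 μ)).orthogonalProjectionOnto F).2
    exact this
  refine ⟨P, Lp.memLp P, ?_, ?_⟩
  · have h1 : ⇑(A P) =ᵐ[μ] fun x => c * P (T x) := by
      change ⇑(c • K P) =ᵐ[μ] _
      refine (Lp.coeFn_smul c (K P)).trans ?_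
      filter_upwards [Lp.coeFn_compMeasurePreserving P hT] with x hx
      rw [Pi.smul_apply, hKap, hx]; rfl
    rw [hPfix] at h1
    filter_upwards [h1] with x hx
    rw [hx, ← mul_assoc, hcF, one_mul]
  · rw [Lp.tendsto_Lp_iff_tendsto_eLpNorm'] at hlim
    refine hlim.congr fun M => ?_
    refine eLpNorm_congr_ae ?_
    refine EventuallyEq.sub ?_ EventuallyEq.rfl
    have hsum : ∀ M : ℕ, ⇑(∑ m ∈ Finset.range M, (⇑A)^[m] F) =ᵐ[μ]
        fun x => ∑ m ∈ Finset.range M, c ^ m * ((f (T^[m] x) : ℝ) : ℂ) := by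
      intro M
      induction M with
      | zero =>
        simp only [Finset.range_zero, Finset.sum_empty]
        exact Lp.coeFn_zero _ _ _
      | succ n ih =>
        rw [Finset.sum_range_succ]
        refine (Lp.coeFn_add _ _).trans ?_
        have h3 : ⇑((⇑A)^[n] F) =ᵐ[μ] fun x => c ^ n * ((f (T^[n] x) : ℝ) : ℂ) := by
          rw [hiter n]; exact MemLp.coeFn_toLp _
        filter_upwards [ih, h3] with x hx hx'
        rw [Pi.add_apply, hx, hx', Finset.sum_range_succ]
    have h2 : birkhoffAverage ℂ (⇑A) _root_.id M F = (M : ℂ)⁻¹ • ∑ m ∈ Finset.range M, (⇑A)^[m] F := rfl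
    rw [h2]
    refine (Lp.coeFn_smul _ _).trans ?_
    filter_upwards [hsum M] with x hx
    rw [Pi.smul_apply, hx, smul_eq_mul]
    congr 1
    refine Finset.sum_congr rfl fun m _ => ?_
    rw [fourier_pow]

end Pool.Agent.Helper23.SS
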